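import Pool.Agent.H20.ER3.Lib

/-!
# MP_816b90_co: Operation C, rows PZ and PW of the board `er3_modules`
-/

set_option autoImplicit false

namespace Pool.Agent.H79.ER3

open Pool.Agent.H48.ER Pool.Agent.H52.ER2 Pool.Agent.H66.ER2 Pool.Agent.H20.ER3

/-- the common part: the path from `g i k` through `g i 0`, `g m 0` to `g m (n m)` and the
reversed segment from `g j (n j)` to `g j l` -/
theorem pz_core {W : Type} {M : SimpleGraph W} {n : Fin 3 → ℕ} {g : Fin 3 → ℕ → W}
    (hPS : U_PS) (hPX : U_PX) {i j m : Fin 3} {k l : ℕ} (hp : PI M n g) (him : i ≠ m)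
    (hjm : j ≠ m) (hk : k < n i) (hl0 : 0 < l) (hl : l ≤ n j) (hij : i = j → k + 2 ≤ l) :
    IP M (k + 1 + n m + 1 + (n j - l)) (g i k) (g j l)
      (seg (g i) 0 k ∪ seg (g m) 0 (n m) ∪ seg (g j) l (n j)) := by
  have h1 := hPX W M n g i m k (n m) hp him hk.le le_rfl (fun e => by omega)
  have h2 := (hPS W M n g j l (n j) hp hl le_rfl).rev
  have hd : Disjoint (seg (g i) 0 k ∪ seg (g m) 0 (n m)) (seg (g j) l (n j)) := by
    rw [Set.disjoint_left]
    rintro v (⟨a, _, ha, rfl⟩ | ⟨a, _, ha, rfl⟩) ⟨c, hc1, hc2, e⟩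
    · obtain ⟨e1, e2⟩ := hp.inj j i c a hc2 (by omega) e
      have := hij e1.symm
      omega
    · obtain ⟨e1, _⟩ := hp.inj j m c a hc2 ha e
      exact hjm e1
  have he : XE M (seg (g i) 0 k ∪ seg (g m) 0 (n m)) (seg (g j) l (n j))
      (g m (n m)) (g j (n j)) := by
    rintro v (⟨a, _, ha, rfl⟩ | ⟨a, _, ha, rfl⟩) w ⟨c, hc1, hc2, rfl⟩
    · rw [hp.adj i j a c (by omega) hc2]
      constructor
      · rintro (⟨e1, e2⟩ | ⟨_, e2 | e2⟩)
        · have := hij e1
          omega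
        · omega
        · omega
      · rintro ⟨e1, _⟩
        exact absurd (hp.inj i m a (n m) (by omega) le_rfl e1).1 him
    · rw [hp.adj m j a c ha hc2]
      constructor
      · rintro (⟨e1, _⟩ | ⟨_, e2 | e2⟩)
        · exact absurd e1.symm hjm
        · omega
        · rw [e2.1, e2.2]
          exact ⟨rfl, rfl⟩
      · rintro ⟨e1, e2⟩
        exact Or.inr ⟨fun e => hjm e.symm, Or.inr ⟨(hp.inj m m a (n m) ha le_rfl e1).2,
          (hp.inj j j c (n j) hc2 le_rfl e2).2⟩⟩
  have h3 := IP.append h1 h2 hd he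
  have e : k + 1 + n m + (n j - l) + 1 = k + 1 + n m + 1 + (n j - l) := by omega
  rw [e] at h3
  exact h3

theorem pf_PZ (hPS : U_PS) (hPX : U_PX) : U_PZ := by
  intro W M n g i j m k l hp hij him hjm hk hl0 hl
  exact pz_core hPS hPX hp him hjm hk hl0 hl (fun e => absurd e hij)

theorem pf_PW (hPS : U_PS) (hPX : U_PX) : U_PW := by
  intro W M n g i m k l hp him hkl hl
  exact pz_core hPS hPX hp him him (by omega) (by omega) hl (fun _ => hkl)

end Pool.Agent.H79.ER3
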